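import Pool.Agent.Lib_helper20.PF.Solv
import Pool.Agent.Lib_helper20.PF.Count

/-!
# MP_cd141f_co: planar functions from an abelian group to an arbitrary group

`G` is a finite abelian group, `N` a finite group, not assumed abelian, `#G = #N = v`, and
`φ : G → N` is planar: `y ↦ φ (x y) φ(y)⁻¹` is a bijection for every `x ≠ 1`.

Then every prime `q` which divides `v` exactly once is divisible by the order of the abelianization
of `N`.  Consequences: a squarefree `v` is `1` or a prime; if `N` is solvable (which always holds,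
by the theorem of Feit and Thompson, because `v` is odd) and `q` is a prime which divides `v`
exactly once, `v ≠ q`, then `v / q` is powerful and `q` divides `r ^ i - 1` for a prime power
`r ^ i ∣ v / q`; at most `C √x (log x) ^ 2` numbers `v ≤ x` which are not primes occur.

Proof.  Let `k` be the algebraic closure of the field with `q` elements, `χ : N → kˣ` a nontrivial
homomorphism, `G = P × K` with `#P = q`, `#K = m`, `q ∤ m`.  With Teichmüller lifts
`M = ∑ χ(φ(g)) g` and `M* = ∑ χ(φ(g))⁻¹ g⁻¹` satisfy `M M* = q m` over the Witt vectors `W(k)`.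
For a homomorphism `λ : K → kˣ` the augmentations of `M_λ` and `M*_λ` are not both divisible
by `q`, so one of these two elements is a unit of the local ring `k[P]`, and the other one is `0`
in `k[P]`.  Hence `(∑ λ(i) χ(φ(i))) (∑ λ(j)⁻¹ χ(φ(j))⁻¹) = 0` in `k`, `i` and `j` running over `K`;
but the sum of these products over all `λ` is `m² ≠ 0`.
-/

namespace Pool.Agent.Results.MP_cd141f_co.AbelianDomain

open Pool.Agent.PF20

/-- Planar functions from a finite abelian group `G` to a finite group `N` of the same order. -/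
theorem result :
    (∀ (G N : Type) [CommGroup G] [Group N] [Finite G] [Finite N] (φ : G → N),
      Nat.card G = Nat.card N →
      (∀ x : G, x ≠ 1 → Function.Bijective fun y : G => φ (x * y) * (φ y)⁻¹) →
        (∀ q : ℕ, q.Prime → q ∣ Nat.card N → ¬ q ^ 2 ∣ Nat.card N →
          Nat.card (Abelianization N) ∣ q) ∧
        (Squarefree (Nat.card N) → Nat.card N = 1 ∨ (Nat.card N).Prime) ∧
        (Group.IsSolvable N → ∀ q m : ℕ, q.Prime → Nat.card N = q * m → ¬ q ∣ m → m ≠ 1 →
          Nat.card (Abelianization N) = q ∧ (∀ r : ℕ, r.Prime → r ∣ m → r ^ 2 ∣ m) ∧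
            ∃ r i : ℕ, r.Prime ∧ 0 < i ∧ r ^ i ∣ m ∧ q ∣ r ^ i - 1)) ∧
    ∃ C : ℝ, ∀ x : ℝ, 2 ≤ x →
      (Set.ncard {v : ℕ | (v : ℝ) ≤ x ∧ ¬ v.Prime ∧
        ∃ (G N : Type) (_ : CommGroup G) (_ : Group N) (_ : Finite G) (_ : Finite N) (φ : G → N),
          Nat.card G = v ∧ Nat.card N = v ∧ Group.IsSolvable N ∧
          ∀ x : G, x ≠ 1 → Function.Bijective fun y : G => φ (x * y) * (φ y)⁻¹} : ℝ) ≤
        C * √x * Real.log x ^ 2 := by
  refine ⟨?_, ?_⟩
  · intro G N _ _ _ _ φ hGN hφ
    refine ⟨?_, squarefree_case hGN φ hφ, ?_⟩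
    · rintro q hq ⟨m, hm⟩ hq2
      have hqm : ¬ q ∣ m := by
        rintro ⟨t, rfl⟩
        exact hq2 ⟨t, by rw [hm]; ring⟩
      exact card_ab_dvd hq hqm (hGN.trans hm) hm φ hφ
    · intro hs q m hq hN hqm hm1
      obtain ⟨h1, h2, h3⟩ := solvable_case hGN φ hφ hs hq hN hqm
      exact ⟨h1, h2, h3 hm1⟩
  · refine count_final {v : ℕ | ¬ v.Prime ∧
        ∃ (G N : Type) (_ : CommGroup G) (_ : Group N) (_ : Finite G) (_ : Finite N) (φ : G → N),
          Nat.card G = v ∧ Nat.card N = v ∧ Group.IsSolvable N ∧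
          ∀ x : G, x ≠ 1 → Function.Bijective fun y : G => φ (x * y) * (φ y)⁻¹} ?_ ?_
    · rintro ⟨-, G, N, _, _, _, _, φ, hG, -⟩
      exact absurd hG Nat.card_pos.ne'
    · rintro v ⟨hv, G, N, _, _, _, _, φ, hG, hN, hs, hφ⟩
      by_cases hp : Pow2 v
      · exact Or.inl hp
      right
      unfold Pow2 at hp
      push Not at hp
      obtain ⟨q, hq, ⟨m, hm⟩, hq2⟩ := hp
      have hqm : ¬ q ∣ m := by
        rintro ⟨t, rfl⟩
        exact hq2 ⟨t, by rw [hm]; ring⟩
      have hm1 : m ≠ 1 := by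
        rintro rfl
        rw [mul_one] at hm
        exact hv (hm ▸ hq)
      obtain ⟨h1, h2, h3⟩ := solvable_case (hG.trans hN.symm) φ hφ hs hq (hN.trans hm) hqm
      exact ⟨q, m, hq, hm, h2, h3 hm1⟩

end Pool.Agent.Results.MP_cd141f_co.AbelianDomain
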