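import Pool.Agent.Lib_helper65.AAOF.FIN

/-!
# MP_cd141f_co: almost all orders of planar functions between arbitrary finite groups

Let `V` be the set of all `v` such that there are finite groups `G` and `N`, both of order `v`
and not assumed abelian, with a planar function `G → N` (`Pool.Agent.AAO.PlanarOrder`, defined in
`Pool/Agent/Lib_helper65/AAO/Defs.lean`).  Then `#{v ∈ V : v ≤ x}` is at most
`(x / log x) exp (C (log log log x)^2)` for `x ≥ 16`.

Proof.  Let `φ : G → N` be planar, `v = #G = #N`; then `v` is odd.  Let `p ∣ v` be a prime and
`C ≤ N` a subgroup of order `p` (not assumed normal).  The determinant of `∑ φ(y)` on the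
representation of `N` induced from a faithful character of `C` is an element of `ℤ[ζ_p]` with
absolute square `v ^ (v / p)` (`exists_norm`), and this forces the exponent of a prime `r ≠ p` in
`v` to be even whenever `-1` is a power of `r` modulo `p` (`even_val`).  So every prime `r` of odd
exponent in `v` is a square modulo every prime divisor `p ≠ r` of `v`.  The integers with this
property are counted by splitting them into a smooth and a rough part, Rankin's trick, Selberg's
sieve in square classes, and an iteration over the weights `2 ^ (-j ω(n))`.
-/

namespace Pool.Agent.Results.MP_cd141f_co.AlmostAllOrders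

open Pool.Agent.AAO

/-- There is a constant `C` such that for every real `x ≥ 16` the number of `v ≤ x` for which two
finite groups of order `v` admit a planar function is at most
`(x / log x) exp (C (log log log x)^2)`. -/
theorem result : ∃ C : ℝ, ∀ x : ℝ, 16 ≤ x →
    (Set.ncard {v : ℕ | (v : ℝ) ≤ x ∧ PlanarOrder v} : ℝ) ≤
      x / Real.log x * Real.exp (C * Real.log (Real.log (Real.log x)) ^ 2) :=
  final

end Pool.Agent.Results.MP_cd141f_co.AlmostAllOrders
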