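import Pool.Agent.Lib_helper77.PLF.Nilpotent

set_option autoImplicit false

/-!
# Planar functions between nilpotent groups whose Sylow subgroups are abelian except for one prime

The theorem and the idea of the proof (reduction modulo `p`, weight lemma) are due to helper32; the
formal proof avoids characters: in the group algebra of `G × N` over `𝔽_p` a large power of the
graph `R` of the planar function is equal to its image in the group algebra of the commutative
`p'`-part, and is killed by `R⁻¹`, while nonzero elements killed by `R⁻¹` have more than `v`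
nonzero coefficients.
-/

namespace Pool.Agent.Results.MP_cd141f_co.NilpotentBound

open Pool.Agent.Lib_helper77.PLF

/-- Let `φ : G → N` be a planar function between finite nilpotent groups of the same order
`v = p ^ a * m`, `p` a prime not dividing `m`, `a ≥ 1`, such that the Sylow `r`-subgroups of `G`
and `N` are commutative for all primes `r ≠ p`.  Then `(p - 1) m < p ^ a`. -/
theorem result (p : ℕ) (hp : p.Prime) (G N : Type) [Group G] [Group N] [Fintype G] [Fintype N]
    (hcard : Fintype.card G = Fintype.card N)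
    (hG : Group.IsNilpotent G) (hN : Group.IsNilpotent N)
    (hGab : ∀ r : ℕ, r.Prime → r ≠ p → ∀ S : Sylow r G, ∀ x ∈ S, ∀ y ∈ S, x * y = y * x)
    (hNab : ∀ r : ℕ, r.Prime → r ≠ p → ∀ S : Sylow r N, ∀ x ∈ S, ∀ y ∈ S, x * y = y * x)
    (a m : ℕ) (ha : 1 ≤ a) (hv : Fintype.card G = p ^ a * m) (hm : ¬ p ∣ m)
    (φ : G → N)
    (hφ : ∀ x : G, x ≠ 1 → Function.Bijective (fun y : G => φ (x * y) * (φ y)⁻¹)) :
    (p - 1) * m < p ^ a := by
  have : Fact p.Prime := ⟨hp⟩
  obtain ⟨P₁, W₁, gP₁, gW₁, fP₁, fW₁, hP₁, hW₁, ⟨e₁⟩⟩ := decomp p G hGab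
  obtain ⟨P₂, W₂, gP₂, gW₂, fP₂, fW₂, hP₂, hW₂, ⟨e₂⟩⟩ := decomp p N hNab
  have hdvd : p ∣ Fintype.card G := by
    rw [hv]
    exact Dvd.dvd.mul_right (dvd_pow_self p (by omega)) m
  have key := bound_prod P₁ P₂ W₁ W₂ hP₁ hP₂ hW₁ hW₂ e₁ e₂ hcard hdvd φ hφ
  have hprod : Nat.card P₁ * Nat.card W₁ = p ^ a * m := by
    rw [← Nat.card_prod, ← Nat.card_congr e₁.toEquiv, Nat.card_eq_fintype_card, hv]
  obtain ⟨b, hb⟩ := (IsPGroup.iff_card).1 hP₁
  have h1 : Nat.card P₁ = p ^ a := by
    apply Nat.dvd_antisymm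
    · apply Nat.Coprime.dvd_of_dvd_mul_right (n := m)
      · rw [hb]
        exact Nat.Coprime.pow_left _ ((Nat.Prime.coprime_iff_not_dvd hp).2 hm)
      · rw [← hprod]; exact Dvd.intro _ rfl
    · apply Nat.Coprime.dvd_of_dvd_mul_right (n := Nat.card W₁)
      · exact Nat.Coprime.pow_left _ ((Nat.Prime.coprime_iff_not_dvd hp).2 hW₁)
      · rw [hprod]; exact Dvd.intro _ rfl
  have h2 : Nat.card W₁ = m := by
    rw [h1] at hprod
    exact Nat.eq_of_mul_eq_mul_left (pow_pos hp.pos a) hprod
  rw [h1, h2] at key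
  exact key

end Pool.Agent.Results.MP_cd141f_co.NilpotentBound
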