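import Pool.Agent.Lib_helper20.PF.Small
import Pool.Agent.Lib_helper20.PF.Cor2

/-!
# MP_cd141f_co: planar functions and the commutator subgroups of the two groups

`G` and `N` are finite groups of the same order `v`, `φ : G → N` is planar, `q` is a prime which
divides `v` exactly once, `m = v / q`; `G'` and `N'` are the commutator subgroups.

Proof.  Let `H = G/G' × N/N' = K × P`, `P` a `q`-group and `q ∤ #K`, and `h(g) = (g, φ(g))` in `H`.
For a homomorphism `θ` of `K` into the multiplicative group of the algebraic closure `k` of the
field with `q` elements, which is not trivial at an element `n` of `N/N'` of order prime to `q`,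
the sums `M = ∑ θ(h(g)) h(g)_P` and `M*` (inverses) satisfy `M M* = v` over the Witt vectors.  As
`q` divides `v` exactly once, one of them is a unit of the local ring `k[P]`, and the other one is
`0` in `k[P]`.  So `θ` of `Γ Γ*` is `0` for every slice `Γ = {g : h(g)_P = x}`, and the number of
pairs of elements of `Γ` with the same image in `K` is congruent modulo `q` to the number of pairs
whose images differ by `n`.  The sums of these two numbers over all slices are
`v + (#G' - 1) #N'` and `(#G' - 1) #N'`, and the sizes of the slices have a known second moment.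
-/

namespace Pool.Agent.Results.MP_cd141f_co.SmallCommutators

open Pool.Agent.PF20

/-- Planar functions `G → N`: bounds for a prime `q` which divides the order exactly once. -/
theorem result :
    (∀ (G N : Type) [Group G] [Group N] [Finite G] [Finite N] (φ : G → N) (q m : ℕ),
      q.Prime → ¬ q ∣ m → Nat.card G = q * m → Nat.card N = q * m →
      (∀ x : G, x ≠ 1 → Function.Bijective fun y : G => φ (x * y) * (φ y)⁻¹) →
      (∃ r : ℕ, r.Prime ∧ r ≠ q ∧ r ∣ Nat.card (Abelianization N)) →
        (¬ q ∣ Nat.card (commutator G) →
          q * min (m % q) (q - m % q) ≤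
            2 * ((Nat.card (commutator G) - 1) * Nat.card (commutator N))) ∧
        (q ∣ Nat.card (Abelianization G) * Nat.card (Abelianization N) →
          Nat.card (commutator G) * Nat.card (commutator N) ≤ q * m →
          q * (q * m - Nat.card (commutator G) * Nat.card (commutator N)) ^ 2
            < (m + 1) * (q * m) ^ 2)) ∧
    (∀ (G N : Type) [Group G] [CommGroup N] [Finite G] [Finite N] (φ : G → N) (q m : ℕ),
      q.Prime → ¬ q ∣ m → m ≠ 1 → Nat.card G = q * m → Nat.card N = q * m →
      (∀ x : G, x ≠ 1 → Function.Bijective fun y : G => φ (x * y) * (φ y)⁻¹) →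
        q < 2 * Nat.card (commutator G) ∧ (Group.IsSolvable G → 4 * q < 9 * (m + 1))) ∧
    (∀ (G N : Type) [Group G] [CommGroup N] [Finite G] [Finite N] (φ : G → N) (p q : ℕ),
      p.Prime → q.Prime → p ≠ q → Nat.card G = p * q → Nat.card N = p * q →
      ¬ ∀ x : G, x ≠ 1 → Function.Bijective fun y : G => φ (x * y) * (φ y)⁻¹) := by
  refine ⟨?_, ?_, ?_⟩
  · intro G N _ _ _ _ φ q m hq hqm hG hN hφ ⟨r, hr, hrq, hrN⟩
    exact ⟨fun h => comm_small hq hqm hG hN φ hφ hr hrq hrN h,
      fun h1 h2 => comm_ineq hq hqm hG hN φ hφ h1 hr hrq hrN h2⟩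
  · intro G N _ _ _ _ φ q m hq hqm hm1 hG hN hφ
    refine ⟨?_, fun hs => abelian_range hs hq hqm hm1 hG hN φ hφ⟩
    have hcpos : 0 < Nat.card (commutator G) := Nat.card_pos
    by_cases hqc : q ∣ Nat.card (commutator G)
    · have := Nat.le_of_dvd hcpos hqc
      omega
    obtain ⟨r, hr, hrm⟩ := Nat.exists_prime_and_dvd hm1
    have hrq : r ≠ q := by rintro rfl; exact hqm hrm
    have hNcomm : commutator N = ⊥ := by
      rw [eq_bot_iff, commutator_def, Subgroup.commutator_le]
      intro a _ b _
      rw [Subgroup.mem_bot, commutatorElement_def, mul_comm a b]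
      simp
    have hcN : Nat.card (commutator N) = 1 := by rw [hNcomm, Subgroup.card_bot]
    have habN : Nat.card (Abelianization N) = q * m := by
      have h1 := (commutator N).card_mul_index
      rw [hcN, one_mul, hN] at h1
      exact h1
    have h1 := comm_small hq hqm hG hN φ hφ hr hrq (by rw [habN]; exact hrm.mul_left q) hqc
    rw [hcN, mul_one] at h1
    have h2 : 1 ≤ min (m % q) (q - m % q) := by
      have h3 : m % q < q := Nat.mod_lt _ hq.pos
      have h4 : m % q ≠ 0 := fun h => hqm (Nat.dvd_of_mod_eq_zero h)
      exact le_min (by omega) (by omega)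
    have h3 : q ≤ q * min (m % q) (q - m % q) := Nat.le_mul_of_pos_right q h2
    omega
  · intro G N _ _ _ _ φ p q hp hq hpq hG hN hφ
    by_cases hc : Nat.card (commutator G) = 1
    · -- `G` is commutative
      have hcomm : ∀ a b : G, a * b = b * a := by
        intro a b
        have h1 := Subgroup.commutator_mem_commutator (Subgroup.mem_top a) (Subgroup.mem_top b)
        rw [← commutator_def, Subgroup.card_eq_one.1 hc, Subgroup.mem_bot,
          commutatorElement_eq_one_iff_mul_comm] at h1
        exact h1
      let iG : CommGroup G := { (inferInstance : Group G) with mul_comm := hcomm }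
      have h1 := @squarefree_case G N iG _ _ _ (hG.trans hN.symm) φ hφ (by
        rw [hN, Nat.squarefree_mul ((Nat.coprime_primes hp hq).2 hpq)]
        exact ⟨hp.prime.squarefree, hq.prime.squarefree⟩)
      rw [hN] at h1
      rcases h1 with h1 | h1
      · exact hp.one_lt.ne' (Nat.eq_one_of_mul_eq_one_right h1)
      · exact Nat.not_prime_mul hp.one_lt.ne' hq.one_lt.ne' h1
    · rcases lt_or_gt_of_ne hpq with h | h
      · exact pq_case hp hq h (hG.trans (mul_comm p q)) (hN.trans (mul_comm p q)) φ hφ hc
      · exact pq_case hq hp h hG hN φ hφ hc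

end Pool.Agent.Results.MP_cd141f_co.SmallCommutators
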